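import Pool.Agent.H74.TQ.Stmts

set_option autoImplicit false

namespace Pool.TQ

open TMLib Polynomial

/-- transcript `w` of length `N`, certified with the advice `d` -/
def EXFP_Tr {α : Type} (Q : α × List Bool → Form) (U : Form → D → Prop) (x : α) (d : D)
    (N : ℕ) (w : List Bool) : Prop :=
  w.length = N ∧ ∀ j < N, (w.getD j false = true ∧ Sat (Q (x, w.take j))) ∨
    (w.getD j false = false ∧ U (Q (x, w.take j)) d)

lemma EXFP_trans {α : Type} {Q : α × List Bool → Form} {U : Form → D → Prop} {x : α} {d : D}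
    {N : ℕ} {w : List Bool} (h : EXFP_Tr Q U x d N w)
    (hd : ∀ j < N, ¬ Sat (Q (x, trans Q x j)) ↔ U (Q (x, trans Q x j)) d) :
    w = trans Q x N := by
  obtain ⟨hl, hc⟩ := h
  have key : ∀ j ≤ N, w.take j = trans Q x j := by
    intro j
    induction j with
    | zero => intro _; simp [trans]
    | succ j ih =>
      intro hj
      have hj' : j < N := hj
      have e := ih hj'.le
      have hw : j < w.length := by omega
      rw [List.take_succ_eq_append_getElem hw, e]
      simp only [trans]
      congr 2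
      have hg : w.getD j false = w[j] := by
        rw [List.getD_eq_getElem _ _ hw]
      have hcj := hc j hj'
      rw [e, hg] at hcj
      rcases hcj with ⟨h1, h2⟩ | ⟨h1, h2⟩
      · rw [h1]
        exact ((satb_iff _).2 h2).symm
      · rw [h1]
        exact ((satb_false_iff _).2 ((hd j hj').2 h2)).symm
  have := key N le_rfl
  rwa [← hl, List.take_length, hl] at this

lemma EXFP_tr {α : Type} {Q : α × List Bool → Form} {U : Form → D → Prop} {x : α} {d : D}
    {N : ℕ} (hd : ∀ j < N, ¬ Sat (Q (x, trans Q x j)) ↔ U (Q (x, trans Q x j)) d) :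
    EXFP_Tr Q U x d N (trans Q x N) := by
  refine ⟨trans_length _ _ _, fun j hj => ?_⟩
  have e : (trans Q x N).take j = trans Q x j := trans_take Q x hj.le
  have e2 : (trans Q x N).getD j false = satb (Q (x, trans Q x j)) := by
    have h1 : trans Q x (j + 1) = (trans Q x N).take (j + 1) := (trans_take Q x hj).symm
    have h2 : (trans Q x (j + 1)).getD j false = satb (Q (x, trans Q x j)) := by
      have hl : (trans Q x j).length = j := trans_length _ _ _
      simp only [trans]
      rw [List.getD_append_right _ _ _ _ (by omega), hl]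
      simp
    rw [← h2, h1]
    simp only [List.getD_eq_getElem?_getD]
    rw [List.getElem?_take]
    simp
  rw [e, e2]
  by_cases hs : Sat (Q (x, trans Q x j))
  · exact Or.inl ⟨(satb_iff _).2 hs, hs⟩
  · exact Or.inr ⟨(satb_false_iff _).2 hs, (hd j hj).1 hs⟩

lemma EXFP_npp {α β : Type} [Enc α] [Enc β] {Q : β × List Bool → Form} {U : Form → D → Prop}
    (hQ : PTime Q) (hU : NPp (fun p : Form × D => U p.1 p.2)) {x : α → β} {d : α → D} {N : α → ℕ}
    {w : α → List Bool} (hx : PTime x) (hd : PTime d) (hN : PTime N) (hw : PTime w) :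
    NPp fun a => EXFP_Tr Q U (x a) (d a) (N a) (w a) := by
  unfold EXFP_Tr
  refine NPp.and (NPp.of_ptime (PTime.natEq (PTime.length hw) hN)) ?_
  refine (NPp.forall_mem (R := fun a j => ((w a).getD j false = true ∧
      Sat (Q (x a, (w a).take j))) ∨ ((w a).getD j false = false ∧
      U (Q (x a, (w a).take j)) (d a))) ?_ (l := fun a => List.range (N a))
      (PTime.range hN)).congr fun a => by simp only [List.mem_range]
  have h1 : PTime fun p : α × ℕ => (w p.1).getD p.2 false :=
    PTime.listGetD (hw.comp (PTime.fst PTime.id)) (PTime.snd PTime.id) (PTime.const _)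
  have h2 : PTime fun p : α × ℕ => Q (x p.1, (w p.1).take p.2) :=
    hQ.comp (PTime.pair (hx.comp (PTime.fst PTime.id))
      (PTime.take (PTime.snd PTime.id) (hw.comp (PTime.fst PTime.id))))
  exact NPp.or (NPp.and (NPp.of_ptime (PTime.eq h1 (PTime.const _))) (npp_sat' h2))
    (NPp.and (NPp.of_ptime (PTime.eq h1 (PTime.const _)))
      (hU.comp (PTime.pair h2 (hd.comp (PTime.fst PTime.id)))))

theorem exfp : S_EXFP := by
  intro K hadv α β _ _ _ _ R q hR hq
  obtain ⟨Adv, U, hAdv, hU, hspec⟩ := hadv
  obtain ⟨Q, O, P, hQ, hO, h⟩ := hR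
  obtain ⟨B, hB⟩ := hQ.exists_size_le
  -- number of queries and size of the queries
  let N : α → ℕ := fun x => P.eval (1 + sz x + q x)
  let m : α → ℕ := fun x => B.eval (1 + (1 + sz x + q x) + (1 + N x * 4))
  have pq : PTime fun x : α => 1 + sz x + q x :=
    PTime.add (PTime.add (PTime.const 1) (PTime.sz' PTime.id)) hq
  have pN : PTime N := PTime.polyEval P pq
  have pm : PTime m := PTime.polyEval B (PTime.add (PTime.add (PTime.const 1) pq)
    (PTime.add (PTime.const 1) (PTime.mul pN (PTime.const 4))))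
  -- the NP predicate
  have hnp : NPp fun a : α × D => ∃ b : β, sz b ≤ q a.1 ∧ ∃ w : List Bool, sz w ≤ 1 + N a.1 * 4 ∧
      (EXFP_Tr Q U (a.1, b) a.2 (N a.1) w ∧ O ((a.1, b), w) = true) := by
    refine NPp.exists_le (R := fun (a : α × D) (b : β) => ∃ w : List Bool, sz w ≤ 1 + N a.1 * 4 ∧
      (EXFP_Tr Q U (a.1, b) a.2 (N a.1) w ∧ O ((a.1, b), w) = true)) ?_
      (hq.comp (PTime.fst PTime.id))
    refine NPp.exists_le (R := fun (p : (α × D) × β) (w : List Bool) =>
      EXFP_Tr Q U (p.1.1, p.2) p.1.2 (N p.1.1) w ∧ O ((p.1.1, p.2), w) = true) ?_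
      (PTime.add (PTime.const 1) (PTime.mul (pN.comp (PTime.fst (PTime.fst PTime.id)))
        (PTime.const 4)))
    have e1 : PTime fun p : ((α × D) × β) × List Bool => (p.1.1.1, p.1.2) :=
      PTime.pair (PTime.fst (PTime.fst (PTime.fst PTime.id))) (PTime.snd (PTime.fst PTime.id))
    refine NPp.and ?_ ?_
    · exact EXFP_npp hQ hU e1 (PTime.snd (PTime.fst (PTime.fst PTime.id)))
        (pN.comp (PTime.fst (PTime.fst (PTime.fst PTime.id)))) (PTime.snd PTime.id)
    · exact NPp.of_ptime (PTime.eq (hO.comp (PTime.pair e1 (PTime.snd PTime.id)))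
        (PTime.const true))
  obtain ⟨f, hf, hfs⟩ := K.toSat hnp
  refine ⟨fun x => satb (f (x, Adv (m x))), ?_, fun x => ?_⟩
  · have h1 : FPNP fun x : α => (x, Adv (m x)) :=
      K.pair (FPNP.of_ptime PTime.id) (K.compp hAdv pm)
    exact K.comp FPNP.satb (K.pcomp hf h1)
  · have hbnd : ∀ b : β, sz b ≤ q x → ∀ j < N x,
        (¬ Sat (Q ((x, b), trans Q (x, b) j)) ↔ U (Q ((x, b), trans Q (x, b) j)) (Adv (m x))) := by
      intro b hb j hj
      refine hspec _ _ ((hB _).trans (eval_mono B ?_))
      have h4 := sz_list_le (trans Q (x, b) j) (N x) 3 (by rw [trans_length]; omega)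
        fun b _ => sz_bool_le b
      rw [sz_pair, sz_pair]
      simp only
      omega
    have hPN : ∀ b : β, sz b ≤ q x → P.eval (sz (x, b)) ≤ N x := by
      intro b hb
      refine eval_mono P ?_
      rw [sz_pair]
      simp only
      omega
    simp only
    rw [satb_iff, ← hfs]
    simp only
    constructor
    · rintro ⟨b, hb, w, -, hw, hO'⟩
      refine ⟨b, hb, ?_⟩
      have := EXFP_trans hw (hbnd b hb)
      rw [this, h _ _ (hPN b hb)] at hO'
      exact hO'
    · rintro ⟨b, hb, hR'⟩
      refine ⟨b, hb, trans Q (x, b) (N x), ?_, EXFP_tr (hbnd b hb), ?_⟩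
      · exact sz_list_le (trans Q (x, b) (N x)) (N x) 3 (by rw [trans_length])
          fun b _ => sz_bool_le b
      · rw [h _ _ (hPN b hb)]
        exact hR'

end Pool.TQ
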